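import Pool.Agent.H73.TS.Targets

/-! Gaussian domination. -/

open MeasureTheory Set Metric
open scoped ENNReal

namespace Pool.Agent.H42.TS

open Pool.Agent.H73.TS

theorem dom : T_DOM := by
  intro d Q hQ hb
  obtain ⟨r, hr⟩ := hb.subset_closedBall (0 : E d)
  set ρ := max r 0 with hρ
  have hρ0 : 0 ≤ ρ := le_max_right _ _
  have hρr : r ≤ ρ := le_max_left _ _
  refine ⟨Real.exp (Real.pi * ρ ^ 2), Real.exp_pos _, fun x => ?_⟩
  rw [← Real.exp_add, Real.exp_le_exp]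
  have h1 : ‖x‖ - ρ ≤ infDist x Q := by
    refine (le_infDist hQ).2 fun {q} hq => ?_
    have h2 : ‖q‖ ≤ ρ := (mem_closedBall_zero_iff.1 (hr hq)).trans hρr
    have h3 : ‖x‖ ≤ ‖x - q‖ + ‖q‖ := by
      have := norm_add_le (x - q) q
      rwa [sub_add_cancel] at this
    rw [dist_eq_norm]
    linarith
  have h0 : 0 ≤ infDist x Q := infDist_nonneg
  have h4 : ‖x‖ ^ 2 / 2 - ρ ^ 2 ≤ infDist x Q ^ 2 := by
    by_cases h : ρ ≤ ‖x‖
    · have h5 : (‖x‖ - ρ) ^ 2 ≤ infDist x Q ^ 2 := by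
        apply pow_le_pow_left₀ (by linarith) h1
      nlinarith [sq_nonneg (‖x‖ - 2 * ρ)]
    · push Not at h
      have h5 : ‖x‖ ^ 2 ≤ ρ ^ 2 := pow_le_pow_left₀ (norm_nonneg x) h.le 2
      nlinarith [sq_nonneg (infDist x Q), sq_nonneg ρ]
  nlinarith [Real.pi_pos, mul_le_mul_of_nonneg_left h4 Real.pi_pos.le]

end Pool.Agent.H42.TS
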