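import Pool.Agent.H73.TS.Targets

/-! Measure preserving splitting of the first coordinate. -/

open MeasureTheory Set Metric
open scoped ENNReal

namespace Pool.Agent.H42.TS

open Pool.Agent.H73.TS

theorem fub : T_FUB := by
  intro n
  let e1 : (ℝ × E n) ≃ᵐ (ℝ × (Fin n → ℝ)) :=
    MeasurableEquiv.prodCongr (MeasurableEquiv.refl ℝ) (MeasurableEquiv.toLp 2 (Fin n → ℝ)).symm
  let e2 : (ℝ × (Fin n → ℝ)) ≃ᵐ (Fin (n + 1) → ℝ) :=
    (MeasurableEquiv.piFinSuccAbove (fun _ => ℝ) 0).symm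
  let e3 : (Fin (n + 1) → ℝ) ≃ᵐ E (n + 1) := MeasurableEquiv.toLp 2 (Fin (n + 1) → ℝ)
  refine ⟨(e1.trans e2).trans e3, ?_, ?_⟩
  · intro p
    ext i
    refine Fin.cases ?_ (fun j => ?_) i
    · rw [cons_zero']
      simp [e1, e2, e3, MeasurableEquiv.piFinSuccAbove_symm_apply]
      rfl
    · rw [cons_succ']
      simp [e1, e2, e3, MeasurableEquiv.piFinSuccAbove_symm_apply]
      rfl
  · have h1 : MeasurePreserving (e1 : (ℝ × E n) → (ℝ × (Fin n → ℝ))) volume volume := by
      have h := (MeasurePreserving.id (volume : Measure ℝ)).prod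
        (PiLp.volume_preserving_ofLp (Fin n))
      exact h
    have h2 : MeasurePreserving (e2 : (ℝ × (Fin n → ℝ)) → (Fin (n + 1) → ℝ)) volume volume :=
      (volume_preserving_piFinSuccAbove (fun _ : Fin (n + 1) => ℝ) 0).symm _
    have h3 : MeasurePreserving (e3 : (Fin (n + 1) → ℝ) → E (n + 1)) volume volume :=
      PiLp.volume_preserving_toLp (Fin (n + 1))
    exact h3.comp (h2.comp h1)

end Pool.Agent.H42.TS
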